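import Pool.Agent.Helper32.Kak.Area

/-!
An explicit upper bound for the star-shaped Kakeya needle constant, below the conjectured value.
The plane is `ℂ` (its norm is the Euclidean norm, its volume the Lebesgue measure).
-/

set_option autoImplicit false

namespace Pool.Agent.Results.MP_ab6de5_gt.ExplicitBound

open Complex MeasureTheory Set Pool.Agent.Helper32.Kak

/-- `R` is a Kakeya region: a unit segment with endpoints `a t`, `b t` moves continuously inside `R`
and comes back to its starting position turned through `180` degrees. -/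
def IsKakeya (R : Set ℂ) : Prop :=
  ∃ a b : ℝ → ℂ, ContinuousOn a (Icc 0 1) ∧ ContinuousOn b (Icc 0 1) ∧
    (∀ t ∈ Icc (0 : ℝ) 1, ‖a t - b t‖ = 1 ∧ segment ℝ (a t) (b t) ⊆ R) ∧ a 1 = b 0 ∧ b 1 = a 0

/-- `R` is star-shaped: for some point `O` of `R`, the segment from `O` to any point of `R` lies in `R`. -/
def IsStar (R : Set ℂ) : Prop := ∃ O ∈ R, ∀ P ∈ R, segment ℝ O P ⊆ R

/-- The needle constant of star-shaped regions. -/
noncomputable def Ks : ENNReal := ⨅ (R : Set ℂ) (_ : IsStar R ∧ IsKakeya R), volume R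

/-- The explicit bound. -/
noncomputable def c0 : ℝ := Real.pi * (81 / 3844 + 2253081 / 32474112)

theorem region_compact {n : ℕ} (hn : 0 < n) {δ ε : ℝ} (hδn : n * δ = 2 * Real.pi) :
    IsCompact (region δ ε) := by
  have harm : IsClosed (arm δ ε) := by
    unfold arm
    have hV := V_continuous
    refine IsClosed.and ?_ (IsClosed.and ?_ ?_)
    · exact isClosed_le continuous_const Complex.continuous_re
    · exact isClosed_le Complex.continuous_re continuous_const
    · apply isClosed_le
      · exact Complex.continuous_im.abs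
      · have : Continuous fun w : ℂ => V (w.re - ε) :=
          hV.comp (Complex.continuous_re.sub continuous_const)
        fun_prop
  have hreg : region δ ε = Metric.closedBall 0 (18 / 124 + ε) ∪
      ⋃ k ∈ Finset.range n, {w : ℂ | exp (-((k : ℤ) * δ * I)) * w ∈ arm δ ε} := by
    ext w
    constructor
    · rintro (h | ⟨k, hk⟩)
      · left
        simpa using h
      · right
        have hn' : (n : ℤ) ≠ 0 := by exact_mod_cast hn.ne'
        have h0 : 0 ≤ k % n := Int.emod_nonneg _ hn'
        have h1 : k % n < n := Int.emod_lt_of_pos _ (by exact_mod_cast hn)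
        obtain ⟨r, hr⟩ := Int.eq_ofNat_of_zero_le h0
        have hrn : r < n := by rw [hr] at h1; exact_mod_cast h1
        simp only [mem_iUnion, mem_ofPred_eq, Finset.mem_range]
        refine ⟨r, hrn, ?_⟩
        have hkr : k = n * (k / n) + r := by rw [← hr]; exact (Int.mul_ediv_add_emod k n).symm
        have hk' : exp (-((k : ℂ) * δ * I)) = exp (-(((r : ℤ) : ℂ) * δ * I)) := by
          have e1 : ((k : ℤ) : ℂ) = (n : ℂ) * ((k / n : ℤ) : ℂ) + (r : ℂ) := by
            conv_lhs => rw [hkr]
            push_cast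
            ring
          rw [exp_eq_exp_iff_exists_int]
          refine ⟨-(k / n), ?_⟩
          have e2 : (n : ℂ) * (δ : ℂ) = 2 * Real.pi := by exact_mod_cast hδn
          rw [e1]
          push_cast
          linear_combination (-((k / n : ℤ) : ℂ) * I) * e2
        rw [hk'] at hk
        exact hk
    · rintro (h | h)
      · left
        simpa using h
      · right
        simp only [mem_iUnion, mem_ofPred_eq, Finset.mem_range] at h
        obtain ⟨r, -, hr⟩ := h
        exact ⟨r, hr⟩
  have hclosed : IsClosed (region δ ε) := by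
    rw [hreg]
    refine Metric.isClosed_closedBall.union ?_
    refine Set.Finite.isClosed_biUnion (Finset.finite_toSet _) fun k _ => ?_
    exact harm.preimage (by fun_prop)
  refine Metric.isCompact_of_isClosed_isBounded hclosed ?_
  refine (Metric.isBounded_closedBall (x := (0 : ℂ))
    (r := max (18 / 124 + ε) (106 / 124 + ε + |δ| * (1 / 4 + |ε|)))).subset ?_
  intro w hw
  rw [mem_closedBall_zero_iff]
  rcases hw with h | ⟨k, hk⟩
  · exact h.trans (le_max_left _ _)
  · refine le_trans ?_ (le_max_right _ _)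
    obtain ⟨h1, h2, h3⟩ := hk
    have hnorm : ‖w‖ = ‖exp (-(k * δ * I)) * w‖ := by
      rw [norm_mul]
      have : ‖exp (-((k : ℂ) * δ * I))‖ = 1 := by
        have h := Complex.norm_exp_ofReal_mul_I (-((k : ℝ) * δ))
        have e : ((-((k : ℝ) * δ) : ℝ) : ℂ) * I = -((k : ℂ) * δ * I) := by
          push_cast
          ring
        rw [e] at h
        exact h
      rw [this, one_mul]
    rw [hnorm]
    set z := exp (-(k * δ * I)) * w
    have h4 : ‖z‖ ≤ |z.re| + |z.im| := Complex.norm_le_abs_re_add_abs_im z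
    have h5 : |z.im| ≤ |δ| * (1 / 4 + |ε|) := by
      refine h3.trans ?_
      have h6 := V_le (z.re - ε)
      have h7 := V_nonneg (z.re - ε)
      calc δ * (V (z.re - ε) + ε) ≤ |δ * (V (z.re - ε) + ε)| := le_abs_self _
        _ = |δ| * |V (z.re - ε) + ε| := abs_mul _ _
        _ ≤ |δ| * (1 / 4 + |ε|) := by
          refine mul_le_mul_of_nonneg_left ?_ (abs_nonneg _)
          refine (abs_add_le _ _).trans ?_
          rw [abs_of_nonneg h7]
          linarith
    rw [abs_of_nonneg h1] at h4
    linarith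

theorem sum_eq (ε : ℝ) : (18 / 124 + ε) ^ 2 + 4 * (2253081 / 129896448 + ε / 4 + ε * (88 / 124 + ε)) =
    81 / 3844 + 2253081 / 32474112 + ε * (36 / 124 + 1 + 4 * (88 / 124)) + 5 * ε ^ 2 := by
  ring

theorem exists_region {η : ℝ} (hη : 0 < η) : ∃ R : Set ℂ, IsCompact R ∧ IsStar R ∧ IsKakeya R ∧
    volume R < ENNReal.ofReal (c0 + η) := by
  have hpi := Real.pi_pos
  have hpi4 := Real.pi_lt_four
  obtain ⟨ε, hε0, hε1, hε2⟩ : ∃ ε : ℝ, 0 < ε ∧ ε ≤ 1 / 100 ∧ 100 * ε < η := by
    refine ⟨min (1 / 100) (η / 200), by positivity, min_le_left _ _, ?_⟩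
    have := min_le_right (1 / 100) (η / 200)
    linarith
  -- the number of arms
  obtain ⟨l, hl⟩ := exists_nat_gt (2 * Real.pi / ε + 2 * Real.pi)
  set n : ℕ := 2 * l + 1 with hn
  have hn0 : (0 : ℝ) < n := by rw [hn]; positivity
  set δ : ℝ := 2 * Real.pi / n with hδ
  have hδn : (n : ℝ) * δ = 2 * Real.pi := by rw [hδ]; field_simp
  have hδ0 : 0 < δ := by rw [hδ]; positivity
  have hln : (l : ℝ) ≤ n := by
    rw [hn]
    push_cast
    linarith [(Nat.cast_nonneg l : (0 : ℝ) ≤ l)]
  have hdiv : 0 < 2 * Real.pi / ε := by positivity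
  have hδε1 : δ ≤ ε := by
    rw [hδ, div_le_iff₀ hn0]
    have h1 : 2 * Real.pi / ε ≤ n := by linarith
    rw [div_le_iff₀ hε0] at h1
    linarith
  have hδ1 : δ ≤ 1 := by linarith
  have hδε : δ ^ 2 ≤ ε := by nlinarith
  let w : ℝ → ℂ := fun t => wn n δ (Real.pi * t) 0
  have hw_cont : Continuous w := by
    have h1 := mo_continuous
    have h2 : Continuous (fun t : ℝ => Yf n (Real.pi * t)) := by
      unfold Yf
      exact continuous_const.mul (Real.continuous_arcsin.comp (by fun_prop))
    have h3 : Continuous (fun t : ℝ => Zf n (Real.pi * t)) := by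
      unfold Zf
      exact continuous_const.mul (Real.continuous_arcsin.comp (by fun_prop))
    have h4 : Continuous (fun t : ℝ => mo (Yf n (Real.pi * t))) := h1.comp h2
    simp only [w, wn]
    fun_prop
  have hws : ∀ t s : ℝ, wn n δ (Real.pi * t) s = w t + s * exp ((Real.pi * t : ℝ) * I) := by
    intro t s
    simp only [w, wn]
    push_cast
    ring
  have hw1 : w 1 = w 0 := by
    simp only [w, wn, Yf, Zf]
    have e1 : (n : ℝ) * (Real.pi * 1) = Real.pi + (l : ℤ) * (2 * Real.pi) := by
      rw [hn]; push_cast; ring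
    rw [e1, Real.sin_add_int_mul_two_pi, Real.cos_add_int_mul_two_pi]
    simp only [Real.sin_pi, Real.arcsin_zero, Real.cos_pi, Real.arcsin_neg, Real.arcsin_one,
      mul_zero, Real.sin_zero, Real.cos_zero]
    have e2 : mo 0 = 0 := by
      unfold mo
      simp
    rw [e2]
    have e3 : 2 / Real.pi * -(Real.pi / 2) = -1 := by field_simp
    have e4 : 2 / Real.pi * (Real.pi / 2) = 1 := by field_simp
    rw [e3, e4]
    simp
  refine ⟨region δ ε, region_compact (by omega) hδn, ⟨0, ?_, ?_⟩, ?_, ?_⟩
  · left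
    simp
    positivity
  · intro P hP z hz
    rw [segment_eq_image'] at hz
    obtain ⟨θ, hθ, rfl⟩ := hz
    have := region_star hδ0 hε0 hP hθ.1 hθ.2
    simpa using this
  · refine ⟨fun t => w t + ((-(1 / 2) : ℝ) : ℂ) * exp ((Real.pi * t : ℝ) * I),
      fun t => w t + ((1 / 2 : ℝ) : ℂ) * exp ((Real.pi * t : ℝ) * I), ?_, ?_, ?_, ?_, ?_⟩
    · exact (hw_cont.add (by fun_prop)).continuousOn
    · exact (hw_cont.add (by fun_prop)).continuousOn
    · intro t _
      constructor
      · have e1 : w t + ((-(1 / 2) : ℝ) : ℂ) * exp ((Real.pi * t : ℝ) * I) -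
            (w t + ((1 / 2 : ℝ) : ℂ) * exp ((Real.pi * t : ℝ) * I)) =
            -exp ((Real.pi * t : ℝ) * I) := by
          push_cast
          ring
        show ‖_‖ = 1
        rw [e1, norm_neg]
        exact Complex.norm_exp_ofReal_mul_I _
      · intro z hz
        rw [segment_eq_image'] at hz
        obtain ⟨θ, hθ, rfl⟩ := hz
        have hθ0 := hθ.1
        have hθ1 := hθ.2
        have h1 := wn_mem (n := n) (l := l) hn hδn hδ0 hδ1 hδε (Real.pi * t) (θ - 1 / 2)
          (by linarith) (by linarith)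
        rw [hws] at h1
        convert! h1 using 1
        show w t + ((-(1 / 2) : ℝ) : ℂ) * exp ((Real.pi * t : ℝ) * I) +
          θ • (w t + ((1 / 2 : ℝ) : ℂ) * exp ((Real.pi * t : ℝ) * I) -
            (w t + ((-(1 / 2) : ℝ) : ℂ) * exp ((Real.pi * t : ℝ) * I))) = _
        rw [Complex.real_smul]
        push_cast
        ring
    · show w 1 + ((-(1 / 2) : ℝ) : ℂ) * exp ((Real.pi * 1 : ℝ) * I) =
        w 0 + ((1 / 2 : ℝ) : ℂ) * exp ((Real.pi * 0 : ℝ) * I)
      rw [hw1]
      simp
    · show w 1 + ((1 / 2 : ℝ) : ℂ) * exp ((Real.pi * 1 : ℝ) * I) =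
        w 0 + ((-(1 / 2) : ℝ) : ℂ) * exp ((Real.pi * 0 : ℝ) * I)
      rw [hw1]
      simp
  · refine lt_of_le_of_lt (volume_region (n := n) (by omega) hδn hδ0 hδε hε1) ?_
    have hc0 : 0 < c0 := by unfold c0; positivity
    rw [ENNReal.ofReal_lt_ofReal_iff_of_nonneg (by positivity), sum_eq]
    unfold c0
    have h1 : ε * (36 / 124 + 1 + 4 * (88 / 124)) + 5 * ε ^ 2 ≤ 5 * ε := by nlinarith
    calc Real.pi * (81 / 3844 + 2253081 / 32474112 + ε * (36 / 124 + 1 + 4 * (88 / 124)) + 5 * ε ^ 2)
        ≤ Real.pi * (81 / 3844 + 2253081 / 32474112) + Real.pi * (5 * ε) := by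
          rw [← mul_add]
          exact mul_le_mul_of_nonneg_left (by linarith) hpi.le
      _ < Real.pi * (81 / 3844 + 2253081 / 32474112) + η := by
          have : Real.pi * (5 * ε) ≤ 4 * (5 * ε) := mul_le_mul_of_nonneg_right hpi4.le (by positivity)
          linarith

/-- The needle constant of star-shaped regions is at most
`c0 = π (81/3844 + 2253081/32474112) < 0.28417`, smaller than the conjectured value
`(5 - 2 √2) π / 24 > 0.28425`, and compact star-shaped Kakeya regions get as close to `c0` as one wants. -/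
theorem result : (∀ η : ℝ, 0 < η → ∃ R : Set ℂ, IsCompact R ∧ IsStar R ∧ IsKakeya R ∧
      volume R < ENNReal.ofReal (c0 + η)) ∧
    Ks ≤ ENNReal.ofReal c0 ∧ c0 < 28417 / 100000 ∧
    28425 / 100000 < (5 - 2 * Real.sqrt 2) / 24 * Real.pi := by
  refine ⟨fun η hη => exists_region hη, ?_, ?_, ?_⟩
  · refine ENNReal.le_of_forall_pos_le_add fun η hη _ => ?_
    obtain ⟨R, -, h1, h2, h3⟩ := exists_region (η := η) (by exact_mod_cast hη)
    refine (iInf₂_le R ⟨h1, h2⟩).trans (h3.le.trans ?_)
    have hc0 : 0 ≤ c0 := by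
      unfold c0
      have := Real.pi_pos
      positivity
    rw [ENNReal.ofReal_add hc0 (by exact η.2)]
    simp
  · unfold c0
    have := Real.pi_lt_d6
    nlinarith
  · have h1 : Real.sqrt 2 < 1.414214 := by
      rw [Real.sqrt_lt' (by norm_num)]
      norm_num
    have h2 := Real.pi_gt_d6
    nlinarith

end Pool.Agent.Results.MP_ab6de5_gt.ExplicitBound
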